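import Pool.Agent.Helper66.CP.OR3

set_option autoImplicit false

namespace Pool.Agent.CP

open Stage Pool.Agent.CQ

namespace OR4

theorem cp_comp {α β : Type*} [Primcodable α] [Primcodable β] {p : β → Prop}
    (hp : ComputablePred p) {f : α → β} (hf : Computable f) : ComputablePred (fun a => p (f a)) :=
  computable_of_re (re_comp hp.to_re hf) (re_comp (p := fun b => ¬ p b) hp.not.to_re hf)

/-- members of the span of a list are combinations of its entries -/
theorem mem_span_list {W : Type*} [AddCommGroup W] [Module ℚ W] (vs : List W) (z : W) :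
    z ∈ Submodule.span ℚ {v | v ∈ vs} ↔ ∃ q : List ℚ, q.length = vs.length ∧ z = lq vs q := by
  induction vs generalizing z with
  | nil =>
    have : ({v | v ∈ ([] : List W)} : Set W) = ∅ := by ext; simp
    rw [this, Submodule.span_empty, Submodule.mem_bot]
    constructor
    · rintro rfl
      exact ⟨[], rfl, rfl⟩
    · rintro ⟨q, -, h⟩
      rw [h]
      rfl
  | cons v vs ih =>
    have : ({w | w ∈ v :: vs} : Set W) = insert v {w | w ∈ vs} := by ext; simp
    rw [this, Submodule.mem_span_insert]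
    constructor
    · rintro ⟨a, y, hy, rfl⟩
      obtain ⟨q, hq, rfl⟩ := (ih y).1 hy
      exact ⟨a :: q, by simp [hq], rfl⟩
    · rintro ⟨q, hq, h⟩
      rcases q with _ | ⟨a, q⟩
      · simp at hq
      · exact ⟨a, lq vs q, (ih _).2 ⟨q, by simpa using hq, rfl⟩, h⟩

theorem c_listmap {n : ℕ} (T : List ((Fin n → ℚ) →ₗ[ℚ] (Fin n → ℚ))) (us : List (Fin n → ℚ)) :
    Computable (fun x : Fin n → ℚ => T.map (fun l => l x) ++ us) := by
  induction T with
  | nil => exact Computable.const us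
  | cons l T ih =>
    have h1 : Computable (fun x : Fin n → ℚ => l x) :=
      (c_mulVec (Computable.const (LinearMap.toMatrix' l)) Computable.id).of_eq
        (fun x => LinearMap.toMatrix'_mulVec l x)
    exact (Computable.list_cons.comp h1 ih).of_eq (fun x => by simp)

end OR4

open OR4

/-- `NQ x` is membership in the span of a computable list -/
theorem NQ_iff_span {k n : ℕ} (S : Stage (FreeGroup (Fin k)) (Fin n → ℚ)) :
    ∃ F : (Fin n → ℚ) → List (Fin n → ℚ), Computable F ∧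
      ∀ x z, S.NQ x z ↔ z ∈ Submodule.span ℚ {v | v ∈ F x} := by
  classical
  obtain ⟨T, hT⟩ : (Submodule.span ℚ (S.L : Set ((Fin n → ℚ) →ₗ[ℚ] (Fin n → ℚ)))).FG :=
    IsNoetherian.noetherian _
  obtain ⟨E, hE⟩ : S.U'.FG := IsNoetherian.noetherian _
  refine ⟨fun x => T.toList.map (fun l => l x) ++ E.toList, c_listmap _ _, fun x z => ?_⟩
  have hset : ({v | v ∈ T.toList.map (fun l => l x) ++ E.toList} : Set (Fin n → ℚ)) =
      (fun l : (Fin n → ℚ) →ₗ[ℚ] (Fin n → ℚ) => l x) '' (T : Set _) ∪ (E : Set _) := by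
    ext v
    simp [eq_comm]
  have himg : Submodule.span ℚ ((fun l : (Fin n → ℚ) →ₗ[ℚ] (Fin n → ℚ) => l x) '' (T : Set _)) =
      (Submodule.span ℚ (S.L : Set ((Fin n → ℚ) →ₗ[ℚ] (Fin n → ℚ)))).map
        (LinearMap.applyₗ (R := ℚ) x) := by
    rw [← hT, Submodule.map_span]
    rfl
  rw [hset, Submodule.span_union, himg, hE, Submodule.mem_sup]
  constructor
  · rintro ⟨l, hl, h⟩
    exact ⟨l x, ⟨l, hl, rfl⟩, z - l x, h, by abel⟩
  · rintro ⟨y, ⟨l, hl, rfl⟩, u, hu, rfl⟩
    refine ⟨l, hl, ?_⟩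
    have : (LinearMap.applyₗ (R := ℚ) x) l + u - l x = u := by
      show l x + u - l x = u
      abel
    rw [this]
    exact hu

theorem cp_NQ {k n : ℕ} (S : Stage (FreeGroup (Fin k)) (Fin n → ℚ)) :
    ComputablePred (fun p : (Fin n → ℚ) × (Fin n → ℚ) => S.NQ p.1 p.2) := by
  obtain ⟨F, hF, h⟩ := NQ_iff_span S
  exact (cp_comp cp_span ((hF.comp Computable.fst).pair Computable.snd)).of_eq
    (fun p => (h p.1 p.2).symm)

theorem cp_NQ_lq {k n : ℕ} (S : Stage (FreeGroup (Fin k)) (Fin n → ℚ)) :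
    ComputablePred (fun p : (Fin n → ℚ) × List (Fin n → ℚ) × (Fin n → ℚ) =>
      ∃ q : List ℚ, q.length = p.2.1.length ∧ S.NQ p.1 (p.2.2 - lq p.2.1 q)) := by
  obtain ⟨F, hF, h⟩ := NQ_iff_span S
  refine (cp_comp (f := fun p : (Fin n → ℚ) × List (Fin n → ℚ) × (Fin n → ℚ) =>
    (F p.1 ++ p.2.1, p.2.2)) cp_span ?_).of_eq (fun p => ?_)
  · exact (Computable.list_append.comp (hF.comp Computable.fst)
      (Computable.fst.comp Computable.snd)).pair (Computable.snd.comp Computable.snd)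
  · have hset : ({v | v ∈ F p.1 ++ p.2.1} : Set (Fin n → ℚ)) = {v | v ∈ F p.1} ∪ {v | v ∈ p.2.1} := by
      ext v; simp
    simp only [hset]
    rw [Submodule.span_union, Submodule.mem_sup]
    constructor
    · rintro ⟨y, hy, w, hw, hyw⟩
      obtain ⟨q, hq, rfl⟩ := (mem_span_list _ _).1 hw
      refine ⟨q, hq, (h _ _).2 ?_⟩
      rw [← hyw, add_sub_cancel_right]
      exact hy
    · rintro ⟨q, hq, hNQ⟩
      exact ⟨_, (h _ _).1 hNQ, lq p.2.1 q, (mem_span_list _ _).2 ⟨q, hq, rfl⟩, by abel⟩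

theorem cp_Ind_NQ {k n : ℕ} (S : Stage (FreeGroup (Fin k)) (Fin n → ℚ)) :
    ComputablePred (fun p : (Fin n → ℚ) × List (Fin n → ℚ) => Ind (S.NQ p.1) p.2) := by
  obtain ⟨F, hF, h⟩ := NQ_iff_span S
  refine (cp_comp (f := fun p : (Fin n → ℚ) × List (Fin n → ℚ) => (F p.1, p.2)) cp_Ind_span
    ((hF.comp Computable.fst).pair Computable.snd)).of_eq (fun p => ?_)
  have : S.NQ p.1 = fun v => v ∈ Submodule.span ℚ {v | v ∈ F p.1} := by
    funext z
    exact propext (h p.1 z)
  rw [this]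

theorem cp_Ind_zero {m : ℕ} :
    ComputablePred (fun vs : List (Fin m → ℚ) => Ind (fun v => v = 0) vs) := by
  refine (cp_comp (f := fun vs : List (Fin m → ℚ) => (([] : List (Fin m → ℚ)), vs)) cp_Ind_span
    ((Computable.const _).pair Computable.id)).of_eq (fun vs => ?_)
  have : (fun v : Fin m → ℚ => v ∈ Submodule.span ℚ {v | v ∈ ([] : List (Fin m → ℚ))}) =
      fun v => v = 0 := by
    funext v
    have h0 : ({v | v ∈ ([] : List (Fin m → ℚ))} : Set (Fin m → ℚ)) = ∅ := by ext; simp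
    rw [h0, Submodule.span_empty]
    exact propext (Submodule.mem_bot ℚ)
  simp only [this]

theorem cp_eq_lq {m : ℕ} :
    ComputablePred (fun p : List (Fin m → ℚ) × (Fin m → ℚ) =>
      ∃ q : List ℚ, q.length = p.1.length ∧ p.2 = lq p.1 q) :=
  (cp_comp cp_span Computable.id).of_eq (fun p => mem_span_list p.1 p.2)

end Pool.Agent.CP
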